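import Mathlib

set_option autoImplicit false

/-!
Stäckel-compactness: definitions.
-/

namespace Pool.Agent.Helper51.SC

open Set Order Cardinal Filter

/-- `X` is Stäckel-compact: for some linear order on the set `X` every nonempty closed subset has
a least and a greatest element. -/
def StaeckelCompact (X : Type*) [TopologicalSpace X] : Prop :=
  ∃ r : LinearOrder X, ∀ C : Set X, IsClosed C → C.Nonempty →
    (∃ m ∈ C, ∀ y ∈ C, r.le m y) ∧ (∃ m ∈ C, ∀ y ∈ C, r.le y m)

/-- Countably compact: every infinite subset has a limit point. -/
def CountablyCompact (X : Type*) [TopologicalSpace X] : Prop :=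
  ∀ s : Set X, s.Infinite → ∃ x, AccPt x (𝓟 s)

section

variable (α : Type) [LinearOrder α]

/-- `x` has countable cofinality (`0` and successors included): some countable set of elements
below `x` is cofinal below `x`. -/
def CtblCof {α : Type} [LinearOrder α] (x : α) : Prop :=
  ∃ s : Set α, s.Countable ∧ s ⊆ Iio x ∧ ∀ y < x, ∃ z ∈ s, y ≤ z

/-- The set of all points of cofinality exactly `ω`. -/
def CofOmega : Set α := {x | CtblCof x ∧ IsSuccLimit x}

/-- The space of all points of `α` of countable cofinality, with the topology inherited from the
order topology of `α`. -/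
def XX : Type := {x : α // CtblCof x}

instance : TopologicalSpace (XX α) :=
  @instTopologicalSpaceSubtype α _ (Preorder.topology α)

/-- `A` contains a closed copy of `ω₁`: the range of a normal (strictly increasing and continuous)
function from `ω₁` to `α`. -/
def ContainsCopy {α : Type} [LinearOrder α] (A : Set α) : Prop :=
  ∃ f : (Ordinal.omega.{0} 1).ToType → α, Order.IsNormal f ∧ Set.range f ⊆ A

end

end Pool.Agent.Helper51.SC
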