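import Mathlib
import Pool.Agent.Helper51.SC.Defs

set_option autoImplicit false

/-!
Basic facts on the space of points of countable cofinality.
-/

namespace Pool.Agent.Helper51.SC

open Set Order Cardinal Filter Topology

variable {α : Type} [LinearOrder α] [WellFoundedLT α]

/-- Countable sets are strictly bounded. -/
theorem bdd_of_countable (hc : ℵ₀ < cof α) {s : Set α} (hs : s.Countable) : ∃ x, ∀ y ∈ s, y < x := by
  by_contra hcon
  push Not at hcon
  have h1 : IsCofinal s := hcon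
  have h2 : cof α ≤ #s := cof_le h1
  exact absurd (h2.trans (le_aleph0_iff_set_countable.mpr hs)) (not_le.mpr hc)

theorem exists_isLUB (hc : ℵ₀ < cof α) {s : Set α} (hs : s.Countable) : ∃ x, IsLUB s x := by
  obtain ⟨x, hx⟩ := bdd_of_countable hc hs
  have hne : (upperBounds s).Nonempty := ⟨x, fun y hy => (hx y hy).le⟩
  exact ⟨wellFounded_lt.min _ hne, wellFounded_lt.min_mem _ hne,
    fun y hy => wellFounded_lt.min_le hy⟩

theorem ctblCof_of_isLUB {s : Set α} (hs : s.Countable) {x : α} (hx : IsLUB s x) (hxs : x ∉ s) :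
    CtblCof x := by
  refine ⟨s, hs, fun y hy => lt_of_le_of_ne (hx.1 hy) (fun h => hxs (h ▸ hy)), fun y hy => ?_⟩
  obtain ⟨z, hz, hyz⟩ := (lt_isLUB_iff hx).mp hy
  exact ⟨z, hz, hyz.le⟩

theorem isSuccLimit_of_isLUB {s : Set α} (hne : s.Nonempty) {x : α} (hx : IsLUB s x)
    (hxs : x ∉ s) : IsSuccLimit x := by
  constructor
  · obtain ⟨y, hy⟩ := hne
    have h1 : y < x := lt_of_le_of_ne (hx.1 hy) (fun h => hxs (h ▸ hy))
    exact fun h => absurd (h h1.le) (not_le.mpr h1)
  · intro y hy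
    obtain ⟨z, hz, hyz⟩ := (lt_isLUB_iff hx).mp hy.lt
    have h1 : z < x := lt_of_le_of_ne (hx.1 hz) (fun h => hxs (h ▸ hz))
    exact hy.2 hyz h1

/-- Closedness of a set of points of the space, in terms of the order. -/
def ClosedUnder (C : Set α) : Prop :=
  ∀ t ⊆ C, t.Countable → t.Nonempty → ∀ x, IsLUB t x → x ∈ C

/-- A point in the closure of a set of points of the space. -/
theorem mem_closure_iff' (C : Set (XX α)) (x : XX α) :
    x ∈ closure C ↔ x ∈ C ∨ ((∃ l, l < x.1) ∧ ∀ y < x.1, ∃ z ∈ C, y < z.1 ∧ z.1 < x.1) := by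
  letI : TopologicalSpace α := Preorder.topology α
  haveI : OrderTopology α := ⟨rfl⟩
  have hcl : x ∈ closure C ↔ x.1 ∈ closure (Subtype.val '' C) :=
    Topology.IsInducing.subtypeVal.closure_eq_preimage_closure_image C ▸ Iff.rfl
  rw [hcl]
  constructor
  · intro h
    by_cases hx : x ∈ C
    · exact Or.inl hx
    · right
      have hmn : ∃ l, l < x.1 := by
        by_contra hmin
        push Not at hmin
        have hU : Iic x.1 ∈ 𝓝 x.1 := by
          by_cases hmax : IsMax x.1
          · exact Filter.mem_of_superset Filter.univ_mem (fun z _ => hmax.isTop z)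
          · rw [not_isMax_iff] at hmax
            obtain ⟨b, hb⟩ := hmax
            have hne : (Ioi x.1).Nonempty := ⟨b, hb⟩
            have hm : x.1 < wellFounded_lt.min (Ioi x.1) hne := wellFounded_lt.min_mem _ hne
            refine Filter.mem_of_superset (Iio_mem_nhds hm) ?_
            intro z hz
            rw [mem_Iic]
            by_contra hcon
            rw [not_le] at hcon
            exact absurd hz (not_lt.mpr (wellFounded_lt.min_le hcon))
        obtain ⟨w, hw1, z, hz, rfl⟩ := mem_closure_iff_nhds.mp h _ hU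
        exact hx ((Subtype.ext (le_antisymm hw1 (hmin z.1)) : z = x) ▸ hz)
      refine ⟨hmn, ?_⟩
      intro y hy
      have hU : Ioi y ∩ Iic x.1 ∈ 𝓝 x.1 := by
        refine Filter.inter_mem (Ioi_mem_nhds hy) ?_
        by_cases hmax : IsMax x.1
        · exact Filter.mem_of_superset Filter.univ_mem (fun z _ => hmax.isTop z)
        · rw [not_isMax_iff] at hmax
          obtain ⟨b, hb⟩ := hmax
          have hne : (Ioi x.1).Nonempty := ⟨b, hb⟩
          have hm : x.1 < wellFounded_lt.min (Ioi x.1) hne := wellFounded_lt.min_mem _ hne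
          refine Filter.mem_of_superset (Iio_mem_nhds hm) ?_
          intro z hz
          rw [mem_Iic]
          by_contra hcon
          rw [not_le] at hcon
          exact absurd hz (not_lt.mpr (wellFounded_lt.min_le hcon))
      obtain ⟨w, hw1, z, hz, rfl⟩ := mem_closure_iff_nhds.mp h _ hU
      refine ⟨z, hz, hw1.1, lt_of_le_of_ne hw1.2 ?_⟩
      intro h
      exact hx ((Subtype.ext h : z = x) ▸ hz)
  · rintro (h | ⟨hmin, h⟩)
    · exact subset_closure ⟨x, h, rfl⟩
    · rw [mem_closure_iff_nhds]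
      intro U hU
      obtain ⟨l, hl, hlU⟩ := exists_Ioc_subset_of_mem_nhds hU hmin
      obtain ⟨z, hz, hz1, hz2⟩ := h l hl
      exact ⟨z.1, hlU ⟨hz1, hz2.le⟩, z, hz, rfl⟩

/-- Closed sets are closed under countable suprema. -/
theorem closed_lub (C : Set (XX α)) (hC : IsClosed C) {t : Set (XX α)} (ht : t ⊆ C)
    (x : XX α) (hne : t.Nonempty) (hx : IsLUB (Subtype.val '' t) x.1) : x ∈ C := by
  by_cases hxt : x ∈ t
  · exact ht hxt
  rw [← hC.closure_eq, mem_closure_iff']
  right
  have hxt' : ∀ z ∈ t, z.1 < x.1 := fun z hz =>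
    lt_of_le_of_ne (hx.1 ⟨z, hz, rfl⟩) (fun h => hxt ((Subtype.ext h : z = x) ▸ hz))
  obtain ⟨z, hz⟩ := hne
  refine ⟨⟨z.1, hxt' z hz⟩, fun y hy => ?_⟩
  obtain ⟨_, ⟨w, hw, rfl⟩, hyw⟩ := (lt_isLUB_iff hx).mp hy
  exact ⟨w, ht hw, hyw, hxt' w hw⟩

/-- A sufficient criterion for closedness. -/
theorem isClosed_of (C : Set (XX α)) (h : ∀ t ⊆ C, t.Countable → t.Nonempty → ∀ x : XX α,
    IsLUB (Subtype.val '' t) x.1 → x ∈ C) : IsClosed C := by
  classical
  rw [← closure_subset_iff_isClosed]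
  intro x hx
  rw [mem_closure_iff'] at hx
  rcases hx with hx | ⟨⟨l, hl⟩, hx⟩
  · exact hx
  · obtain ⟨s, hs, hsx, hcof⟩ := x.2
    haveI : Nonempty (XX α) := ⟨x⟩
    have hx' : ∀ y : α, ∃ z : XX α, y < x.1 → z ∈ C ∧ y < z.1 ∧ z.1 < x.1 := by
      intro y
      by_cases hy : y < x.1
      · obtain ⟨z, h1, h2⟩ := hx y hy
        exact ⟨z, fun _ => ⟨h1, h2⟩⟩
      · exact ⟨x, fun h => absurd h hy⟩
    choose g hg using hx'
    have hne : s.Nonempty := by
      obtain ⟨z, hz, -⟩ := hcof l hl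
      exact ⟨z, hz⟩
    refine h (g '' s) ?_ (hs.image g) (hne.image g) x ?_
    · rintro _ ⟨y, hy, rfl⟩
      exact (hg y (hsx hy)).1
    · constructor
      · rintro _ ⟨_, ⟨y, hy, rfl⟩, rfl⟩
        exact (hg y (hsx hy)).2.2.le
      · intro b hb
        by_contra hcon
        rw [not_le] at hcon
        obtain ⟨z, hz, hbz⟩ := hcof b hcon
        have h1 := hb ⟨g z, ⟨z, hz, rfl⟩, rfl⟩
        exact absurd (h1.trans hbz) (not_le.mpr (hg z (hsx hz)).2.1)

end Pool.Agent.Helper51.SC
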