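import Mathlib
import Pool.Agent.Helper51.SC.Basic

set_option autoImplicit false

/-!
Diagonal intersections and the first theorem: a Stäckel order produces two disjoint stationary
sets without closed copies of `ω₁`.
-/

namespace Pool.Agent.Helper51.SC

open Set Order Cardinal Filter Topology

variable {α : Type} [LinearOrder α] [WellFoundedLT α] [IsRegularCardinalOrder α]

theorem cof_gt (hα : ℵ₀ < #α) : ℵ₀ < cof α := by
  rwa [cof_eq_cardinalMk]

theorem card_Iic_lt (hα : ℵ₀ < #α) (x : α) : #(Iic x) < cof α := by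
  have hc := cof_gt hα
  obtain ⟨x', hx'⟩ := bdd_of_countable hc (Set.countable_singleton x)
  have h1 : #(Iio x') < cof α := by
    rw [cof_eq_cardinalMk]
    have h2 : Ordinal.typein (α := α) (· < ·) x' < Ordinal.type (α := α) (· < ·) :=
      Ordinal.typein_lt_type _ x'
    have h3 : Ordinal.type (α := α) (· < ·) = ord #α := Cardinal.ord_cardinalMk.symm
    rw [h3, lt_ord, Ordinal.card_typein] at h2
    exact h2
  refine lt_of_le_of_lt (Cardinal.mk_le_mk_of_subset ?_) h1
  intro y hy
  exact lt_of_le_of_lt hy (hx' x rfl)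

/-- Diagonal intersections of club sets are club sets. -/
theorem isClub_diag (hα : ℵ₀ < #α) (C : α → Set α) (hC : ∀ i, IsClub (C i)) :
    IsClub {x | ∀ i < x, x ∈ C i} := by
  have hc := cof_gt hα
  constructor
  · intro d hd hne hdir a ha i hi
    by_cases had : a ∈ d
    · exact hd had i hi
    · have h1 : (d ∩ Ioi i) ⊆ C i := fun x hx => hd hx.1 i hx.2
      have h2 : IsLUB (d ∩ Ioi i) a := by
        constructor
        · intro x hx
          exact ha.1 hx.1
        · intro b hb
          apply ha.2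
          intro x hx
          rcases lt_or_ge i x with h | h
          · exact hb ⟨hx, h⟩
          · obtain ⟨y, hy, hiy⟩ := (lt_isLUB_iff ha).mp hi
            exact (h.trans hiy.le).trans (hb ⟨hy, hiy⟩)
      obtain ⟨y, hy, hiy⟩ := (lt_isLUB_iff ha).mp hi
      exact (hC i).isLUB_mem h1 ⟨y, hy, hiy⟩ h2
  · intro a
    have hstep : ∀ x : α, ∃ y, x < y ∧ ∀ i ≤ x, y ∈ C i := by
      intro x
      have h1 : IsClub (⋂ i : Iic x, C i.1) := by
        refine IsClub.iInter hc.ne' ?_ (fun i => hC i.1)
        rw [Cardinal.lift_id, Cardinal.lift_id]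
        exact card_Iic_lt hα x
      obtain ⟨x', hx'⟩ := bdd_of_countable hc (Set.countable_singleton x)
      obtain ⟨y, hy, hxy⟩ := h1.isCofinal x'
      refine ⟨y, (hx' x rfl).trans_le hxy, fun i hi => ?_⟩
      exact Set.mem_iInter.mp hy ⟨i, hi⟩
    choose g hg1 hg2 using hstep
    let u : ℕ → α := fun n => g^[n] a
    have hu : ∀ n, u (n + 1) = g (u n) := fun n => Function.iterate_succ_apply' g n a
    have humono : StrictMono u := strictMono_nat_of_lt_succ fun n => by
      rw [hu]
      exact hg1 _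
    obtain ⟨s, hs⟩ := exists_isLUB hc (Set.countable_range u)
    refine ⟨s, ?_, hs.1 ⟨0, rfl⟩⟩
    intro i hi
    obtain ⟨_, ⟨n, rfl⟩, hn⟩ := (lt_isLUB_iff hs).mp hi
    have hne : (u '' {m | n < m}).Nonempty := ⟨u (n + 1), n + 1, Nat.lt_succ_self n, rfl⟩
    refine (hC i).isLUB_mem (t := u '' {m | n < m}) ?_ hne ?_
    · rintro _ ⟨m, hm, rfl⟩
      obtain ⟨k, rfl⟩ := Nat.exists_eq_add_of_lt hm
      have : u (n + k + 1) = g (u (n + k)) := hu _
      rw [this]
      exact hg2 _ i (hn.le.trans (humono.monotone (Nat.le_add_right n k)))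
    · constructor
      · rintro _ ⟨m, -, rfl⟩
        exact hs.1 ⟨m, rfl⟩
      · intro b hb
        apply hs.2
        rintro _ ⟨m, rfl⟩
        exact (humono.monotone (Nat.le_add_left m (n + 1))).trans
          (hb ⟨n + 1 + m, by simp; omega, rfl⟩)

/-- The points of cofinality `ω` form a stationary set. -/
theorem isStationary_cofOmega (hα : ℵ₀ < #α) : IsStationary (CofOmega α) := by
  intro C hC
  have hc := cof_gt hα
  have hstep : ∀ x : α, ∃ y ∈ C, x < y := by
    intro x
    obtain ⟨x', hx'⟩ := bdd_of_countable hc (Set.countable_singleton x)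
    obtain ⟨y, hy, hxy⟩ := hC.isCofinal x'
    exact ⟨y, hy, (hx' x rfl).trans_le hxy⟩
  choose g hg1 hg2 using hstep
  haveI : Nonempty α := by
    by_contra h
    rw [not_nonempty_iff] at h
    rw [Cardinal.mk_eq_zero_iff.mpr h] at hα
    exact absurd hα (by simp)
  obtain ⟨a⟩ := ‹Nonempty α›
  let u : ℕ → α := fun n => g^[n + 1] a
  have hu : ∀ n, u (n + 1) = g (u n) := fun n => Function.iterate_succ_apply' g (n + 1) a
  have huC : ∀ n, u n ∈ C := fun n => by
    have : u n = g (g^[n] a) := Function.iterate_succ_apply' g n a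
    rw [this]
    exact hg1 _
  have humono : StrictMono u := strictMono_nat_of_lt_succ fun n => by
    rw [hu]
    exact hg2 _
  obtain ⟨s, hs⟩ := exists_isLUB hc (Set.countable_range u)
  have hsn : s ∉ Set.range u := by
    rintro ⟨n, rfl⟩
    exact absurd (hs.1 ⟨n + 1, rfl⟩) (not_le.mpr (humono (Nat.lt_succ_self n)))
  have hne : (Set.range u).Nonempty := ⟨u 0, 0, rfl⟩
  refine ⟨s, ⟨ctblCof_of_isLUB (Set.countable_range u) hs hsn,
    isSuccLimit_of_isLUB hne hs hsn⟩, ?_⟩
  exact hC.isLUB_mem (by rintro _ ⟨n, rfl⟩; exact huC n) hne hs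

end Pool.Agent.Helper51.SC
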