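import Mathlib
import Pool.Agent.Helper51.SC.Stat

set_option autoImplicit false

/-!
A Stäckel order produces two disjoint stationary sets without closed copies of `ω₁`.
-/

namespace Pool.Agent.Helper51.SC

open Set Order Cardinal Filter Topology

theorem cof_omega1 : ℵ₀ < cof (Ordinal.omega.{0} 1).ToType := by
  rw [Ordinal.cof_toType]
  have h1 : (Ordinal.omega.{0} 1).cof = ℵ_ 1 := by
    rw [← Cardinal.ord_aleph]
    exact Cardinal.isRegular_aleph_one.cof_ord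
  rw [h1]
  exact Cardinal.aleph0_lt_aleph_one

section

variable {α : Type} [LinearOrder α] [WellFoundedLT α]

/-- The image of a normal function on `ω₁` is closed under countable suprema. -/
theorem normal_lub (f : (Ordinal.omega.{0} 1).ToType → α) (hf : Order.IsNormal f)
    (t : Set α) (ht : t ⊆ range f) (htc : t.Countable) (x : α) (hne : t.Nonempty)
    (hx : IsLUB t x) : x ∈ range f := by
  have h1 : (f ⁻¹' t).Countable := htc.preimage hf.strictMono.injective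
  obtain ⟨l, hl⟩ := exists_isLUB cof_omega1 h1
  have h2 : (f ⁻¹' t).Nonempty := by
    obtain ⟨y, hy⟩ := hne
    obtain ⟨ξ, rfl⟩ := ht hy
    exact ⟨ξ, hy⟩
  refine ⟨l, ?_⟩
  by_cases hlt : l ∈ f ⁻¹' t
  · apply le_antisymm (hx.1 hlt)
    apply hx.2
    intro y hy
    obtain ⟨ξ, rfl⟩ := ht hy
    exact hf.strictMono.monotone (hl.1 hy)
  · have hlim := isSuccLimit_of_isLUB h2 hl hlt
    have h3 := hf.isLUB_image_Iio_of_isSuccLimit hlim
    apply le_antisymm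
    · apply h3.2
      rintro _ ⟨ξ, hξ, rfl⟩
      obtain ⟨η, hη, hξη⟩ := (lt_isLUB_iff hl).mp hξ
      exact (hf.strictMono hξη).le.trans (hx.1 hη)
    · apply hx.2
      intro y hy
      obtain ⟨ξ, rfl⟩ := ht hy
      exact hf.strictMono.monotone (hl.1 hy)

variable [IsRegularCardinalOrder α]

/-- The set of points of cofinality `ω` which have stationarily few points above them in the
given order. -/
def JJ (lt : XX α → XX α → Prop) : Set α :=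
  {γ | ∃ h : CtblCof γ, IsSuccLimit γ ∧
    ¬ IsStationary {β | ∃ h' : CtblCof β, IsSuccLimit β ∧ lt ⟨γ, h⟩ ⟨β, h'⟩}}

theorem JJ_stationary (hα : ℵ₀ < #α) (lt : XX α → XX α → Prop)
    (hmax : ∀ C : Set (XX α), IsClosed C → C.Nonempty → ∃ m ∈ C, ∀ y ∈ C, ¬ lt m y) :
    IsStationary (JJ lt) := by
  by_contra hcon
  rw [not_isStationary_iff] at hcon
  obtain ⟨C, hC, hdis⟩ := hcon
  set D : Set (XX α) := {x | x.1 ∈ C ∧ IsSuccLimit x.1} with hD
  have hDc : IsClosed D := by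
    refine isClosed_of D fun t ht _ hne x hx => ?_
    by_cases hxt : x ∈ t
    · exact ht hxt
    · have hxt' : x.1 ∉ Subtype.val '' t := by
        rintro ⟨z, hz, hzx⟩
        exact hxt ((Subtype.ext hzx : z = x) ▸ hz)
      refine ⟨hC.isLUB_mem ?_ (hne.image _) hx, isSuccLimit_of_isLUB (hne.image _) hx hxt'⟩
      rintro _ ⟨z, hz, rfl⟩
      exact (ht hz).1
  have hDne : D.Nonempty := by
    obtain ⟨y, hy, hyC⟩ := isStationary_cofOmega hα hC
    exact ⟨⟨y, hy.1⟩, hyC, hy.2⟩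
  obtain ⟨m, hm, hmax'⟩ := hmax D hDc hDne
  have hmJ : m.1 ∉ JJ lt := fun h => (Set.disjoint_left.mp hdis h) hm.1
  have hst : IsStationary {β | ∃ h' : CtblCof β, IsSuccLimit β ∧ lt m ⟨β, h'⟩} := by
    by_contra h
    exact hmJ ⟨m.2, hm.2, h⟩
  obtain ⟨β, ⟨h', hlim, hlt⟩, hβC⟩ := hst hC
  exact hmax' ⟨β, h'⟩ ⟨hβC, hlim⟩ hlt

theorem exists_half (hα : ℵ₀ < #α) (lt : XX α → XX α → Prop)
    (htri : ∀ x y, lt x y ∨ x = y ∨ lt y x)
    (hmax : ∀ C : Set (XX α), IsClosed C → C.Nonempty → ∃ m ∈ C, ∀ y ∈ C, ¬ lt m y)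
    (hmin : ∀ C : Set (XX α), IsClosed C → C.Nonempty → ∃ m ∈ C, ∀ y ∈ C, ¬ lt y m) :
    ∃ A ⊆ JJ lt, IsStationary A ∧ ¬ ContainsCopy A := by
  classical
  have hex : ∀ γ : α, ∃ C : Set α, IsClub C ∧ ∀ h : CtblCof γ, γ ∈ JJ lt →
      ∀ β ∈ C, ∀ h' : CtblCof β, IsSuccLimit β → ¬ lt ⟨γ, h⟩ ⟨β, h'⟩ := by
    intro γ
    by_cases hγ : γ ∈ JJ lt
    · obtain ⟨h, h1, h2⟩ := hγ
      rw [not_isStationary_iff] at h2
      obtain ⟨C, hC, hdis⟩ := h2
      refine ⟨C, hC, fun _ _ β hβ h' hlim hlt => ?_⟩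
      exact Set.disjoint_left.mp hdis ⟨h', hlim, hlt⟩ hβ
    · exact ⟨univ, IsClub.univ, fun _ h => absurd h hγ⟩
  choose C hC hCJ using hex
  have hΔ := isClub_diag hα C hC
  refine ⟨JJ lt ∩ {x | ∀ i < x, x ∈ C i}, inter_subset_left, ?_, ?_⟩
  · intro t ht
    have h1 := hΔ.inter (cof_gt hα).ne' ht
    obtain ⟨x, hx, hx'⟩ := JJ_stationary hα lt hmax h1
    exact ⟨x, ⟨hx, hx'.1⟩, hx'.2⟩
  · rintro ⟨f, hf, hfr⟩
    set E : Set (XX α) := {x | x.1 ∈ range f} with hE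
    have hEc : IsClosed E := by
      refine isClosed_of E fun t ht htc hne x hx => ?_
      refine normal_lub f hf (Subtype.val '' t) ?_ (htc.image _) x.1 (hne.image _) hx
      rintro _ ⟨z, hz, rfl⟩
      exact ht hz
    have hcf : ∀ ξ, CtblCof (f ξ) := fun ξ => by
      obtain ⟨⟨h, -⟩, -⟩ := hfr ⟨ξ, rfl⟩
      exact h
    haveI : Nonempty (Ordinal.omega.{0} 1).ToType := by
      by_contra h
      rw [not_nonempty_iff] at h
      have := cof_omega1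
      rw [Order.cof_eq_zero] at this
      exact absurd this (by simp)
    obtain ⟨ξ₀⟩ := this
    obtain ⟨m, ⟨ξ, hξ⟩, hm⟩ := hmin E hEc ⟨⟨f ξ₀, hcf ξ₀⟩, ξ₀, rfl⟩
    obtain ⟨η, hη⟩ := bdd_of_countable cof_omega1 (Set.countable_singleton ξ)
    have hlt : f ξ < f η := hf.strictMono (hη ξ rfl)
    have h1 : f η ∈ C (f ξ) := (hfr ⟨η, rfl⟩).2 (f ξ) hlt
    have h2 := hCJ (f ξ) (hcf ξ) (hfr ⟨ξ, rfl⟩).1 (f η) h1 (hcf η)
      (by obtain ⟨⟨_, h, _⟩, _⟩ := hfr ⟨η, rfl⟩; exact h)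
    have hmξ : m = ⟨f ξ, hcf ξ⟩ := Subtype.ext hξ.symm
    rcases htri ⟨f ξ, hcf ξ⟩ ⟨f η, hcf η⟩ with h | h | h
    · exact h2 h
    · exact absurd (congrArg Subtype.val h) hlt.ne
    · exact hm ⟨f η, hcf η⟩ ⟨η, rfl⟩ (hmξ ▸ h)

/-- Theorem 1. -/
theorem stationary_pair (hα : ℵ₀ < #α) (h : StaeckelCompact (XX α)) :
    ∃ A B : Set α, A ⊆ CofOmega α ∧ B ⊆ CofOmega α ∧ Disjoint A B ∧
      IsStationary A ∧ IsStationary B ∧ ¬ ContainsCopy A ∧ ¬ ContainsCopy B := by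
  obtain ⟨r, hr⟩ := h
  have hmin : ∀ C : Set (XX α), IsClosed C → C.Nonempty → ∃ m ∈ C, ∀ y ∈ C, ¬ r.lt y m := by
    intro C hC hne
    obtain ⟨⟨m, hm, h⟩, -⟩ := hr C hC hne
    exact ⟨m, hm, fun y hy hlt => (@not_le _ r y m |>.mpr) |> fun _ =>
      (@lt_iff_not_ge _ r y m).mp hlt (h y hy)⟩
  have hmax : ∀ C : Set (XX α), IsClosed C → C.Nonempty → ∃ m ∈ C, ∀ y ∈ C, ¬ r.lt m y := by
    intro C hC hne
    obtain ⟨-, ⟨m, hm, h⟩⟩ := hr C hC hne
    exact ⟨m, hm, fun y hy hlt => (@lt_iff_not_ge _ r m y).mp hlt (h y hy)⟩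
  have htri : ∀ x y, r.lt x y ∨ x = y ∨ r.lt y x := fun x y => @lt_trichotomy _ r x y
  obtain ⟨A, hA, hAs, hAc⟩ := exists_half hα r.lt htri hmax hmin
  obtain ⟨B, hB, hBs, hBc⟩ := exists_half hα (fun x y => r.lt y x)
    (fun x y => by
      rcases htri x y with h | h | h
      · exact Or.inr (Or.inr h)
      · exact Or.inr (Or.inl h)
      · exact Or.inl h) hmin hmax
  have hJ : ∀ (lt : XX α → XX α → Prop), JJ lt ⊆ CofOmega α := by
    rintro lt γ ⟨h, h1, -⟩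
    exact ⟨h, h1⟩
  refine ⟨A, B, hA.trans (hJ _), hB.trans (hJ _), ?_, hAs, hBs, hAc, hBc⟩
  rw [Set.disjoint_left]
  intro γ hγA hγB
  obtain ⟨h, h1, h2⟩ := hA hγA
  obtain ⟨h', h1', h2'⟩ := hB hγB
  have hS := isStationary_cofOmega hα
  have hsub : CofOmega α ⊆ ({β | ∃ h' : CtblCof β, IsSuccLimit β ∧ r.lt ⟨γ, h⟩ ⟨β, h'⟩} ∪
      {β | ∃ h' : CtblCof β, IsSuccLimit β ∧ r.lt ⟨β, h'⟩ ⟨γ, h⟩}) ∪ {γ} := by
    rintro β ⟨hβ, hβl⟩
    rcases htri ⟨γ, h⟩ ⟨β, hβ⟩ with h3 | h3 | h3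
    · exact Or.inl (Or.inl ⟨hβ, hβl, h3⟩)
    · exact Or.inr (congrArg Subtype.val h3).symm
    · exact Or.inl (Or.inr ⟨hβ, hβl, h3⟩)
  have hc := (cof_gt hα).ne'
  have h3 := hS.mono hsub
  rw [isStationary_union_iff hc, isStationary_union_iff hc] at h3
  rcases h3 with (h3 | h3) | h3
  · exact h2 h3
  · exact h2' h3
  · obtain ⟨x, hx, hx'⟩ := h3 (t := Ioi γ) (by
      constructor
      · intro d hd hne _ a ha
        obtain ⟨y, hy⟩ := hne
        exact (hd hy).trans_le (ha.1 hy)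
      · intro a
        obtain ⟨b, hb⟩ := bdd_of_countable (cof_gt hα) (s := {a, γ}) (by simp)
        exact ⟨b, hb γ (by simp), (hb a (by simp)).le⟩)
    rw [mem_singleton_iff] at hx
    subst hx
    exact lt_irrefl _ hx'

end

end Pool.Agent.Helper51.SC
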