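import Mathlib
import Pool.Agent.Helper51.SC.Pair

set_option autoImplicit false

/-!
A partition into two sets without closed copies of `ω₁` yields a Stäckel order.
-/

namespace Pool.Agent.Helper51.SC

open Set Order Cardinal Filter Topology

variable {α : Type} [LinearOrder α] [WellFoundedLT α]

/-- A set of order type `ω₁` closed under countable suprema is the range of a normal function. -/
theorem exists_normal (hc : ℵ₀ < cof α) (E : Set α) (hun : ¬ E.Countable)
    (hini : ∀ x ∈ E, (E ∩ Iio x).Countable)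
    (hcl : ∀ t ⊆ E, t.Countable → t.Nonempty → ∀ x, IsLUB t x → x ∈ E) :
    ∃ f : (Ordinal.omega.{0} 1).ToType → α, Order.IsNormal f ∧ range f ⊆ E := by
  have htype : Ordinal.type (α := E) (· < ·) = Ordinal.omega.{0} 1 := by
    rw [← Cardinal.ord_aleph]
    apply le_antisymm
    · refine le_of_forall_lt fun c hc' => ?_
      obtain ⟨a, rfl⟩ := Ordinal.typein_surj (α := E) (· < ·) hc'
      rw [lt_ord, Ordinal.card_typein]
      have h1 : #{y : E // y < a} ≤ ℵ₀ := by
        rw [Cardinal.mk_le_aleph0_iff]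
        have h2 := hini a.1 a.2
        have h3 : Function.Injective (fun y : {y : E // y < a} =>
            (⟨y.1.1, y.1.2, y.2⟩ : (E ∩ Iio a.1 : Set α))) := by
          intro y z h
          have h4 : y.1.1 = z.1.1 := congrArg (fun w : (E ∩ Iio a.1 : Set α) => w.1) h
          exact Subtype.ext (Subtype.ext h4)
        haveI : Countable (E ∩ Iio a.1 : Set α) := h2
        exact h3.countable
      exact lt_of_le_of_lt h1 Cardinal.aleph0_lt_aleph_one
    · rw [Cardinal.ord_le, Ordinal.card_type, Cardinal.aleph_one_le_iff]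
      rw [← not_le, Cardinal.mk_le_aleph0_iff]
      exact hun
  have htype' : Ordinal.type (α := (Ordinal.omega.{0} 1).ToType) (· < ·)
      = Ordinal.type (α := E) (· < ·) := by
    rw [htype]
    exact Ordinal.type_toType _
  obtain ⟨e⟩ := Ordinal.type_eq.mp htype'
  have hmono : StrictMono (fun ξ => (e ξ).1) := fun ξ η h => e.map_rel_iff.mpr h
  refine ⟨fun ξ => (e ξ).1, ⟨hmono, ?_⟩, ?_⟩
  · intro l hl b hb
    by_contra hcon
    rw [not_le] at hcon
    have hne : (Iio l).Nonempty := by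
      have := hl.not_isMin
      rw [not_isMin_iff] at this
      exact this
    have ht : ((fun ξ => (e ξ).1) '' Iio l).Countable := by
      have h2 := hini (e l).1 (e l).2
      refine h2.mono ?_
      rintro _ ⟨ξ, hξ, rfl⟩
      exact ⟨(e ξ).2, hmono hξ⟩
    obtain ⟨x, hx⟩ := exists_isLUB hc ht
    have hxE : x ∈ E := hcl _ (by rintro _ ⟨ξ, -, rfl⟩; exact (e ξ).2) ht (hne.image _) x hx
    obtain ⟨m, hm⟩ := e.surjective ⟨x, hxE⟩
    have hm' : (e m).1 = x := congrArg Subtype.val hm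
    have hml : m < l := by
      by_contra h
      rw [not_lt] at h
      have h1 : (e l).1 ≤ (e m).1 := hmono.monotone h
      rw [hm'] at h1
      exact absurd (h1.trans (hx.2 hb)) (not_le.mpr hcon)
    obtain ⟨m', hm1, hm2⟩ : ∃ m', m < m' ∧ m' < l := by
      by_contra h
      push Not at h
      exact hl.isSuccPrelimit m ⟨hml, fun {c} h1 h2 => absurd h2 (not_lt.mpr (h c h1))⟩
    have h3 : (e m').1 ≤ x := hx.1 ⟨m', hm2, rfl⟩
    rw [← hm'] at h3
    exact absurd h3 (not_le.mpr (hmono hm1))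
  · rintro _ ⟨ξ, rfl⟩
    exact (e ξ).2

/-- A nonempty closed set of points without a greatest element contains a closed copy of `ω₁`
consisting of points of cofinality `ω`. -/
theorem copy_of_closed (hc : ℵ₀ < cof α) (C : Set (XX α)) (hC : IsClosed C) (hne : C.Nonempty)
    (hnm : ∀ x ∈ C, ∃ y ∈ C, x.1 < y.1) :
    ContainsCopy (Subtype.val '' C ∩ CofOmega α) := by
  classical
  -- countable subsets are bounded
  have hbd : ∀ t : Set (XX α), t ⊆ C → t.Countable → ∃ y ∈ C, ∀ z ∈ t, z.1 < y.1 := by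
    intro t ht htc
    rcases t.eq_empty_or_nonempty with rfl | htne
    · obtain ⟨y, hy⟩ := hne
      exact ⟨y, hy, fun z hz => absurd hz (notMem_empty z)⟩
    · obtain ⟨x, hx⟩ := exists_isLUB hc (htc.image Subtype.val)
      by_cases hxt : x ∈ Subtype.val '' t
      · obtain ⟨z, hz, rfl⟩ := hxt
        obtain ⟨y, hy, hzy⟩ := hnm z (ht hz)
        exact ⟨y, hy, fun w hw => lt_of_le_of_lt (hx.1 ⟨w, hw, rfl⟩) hzy⟩
      · have h1 : CtblCof x := ctblCof_of_isLUB (htc.image _) hx hxt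
        have h2 : (⟨x, h1⟩ : XX α) ∈ C := closed_lub C hC ht ⟨x, h1⟩ htne hx
        obtain ⟨y, hy, hzy⟩ := hnm _ h2
        exact ⟨y, hy, fun w hw => lt_of_le_of_lt (hx.1 ⟨w, hw, rfl⟩) hzy⟩
  -- limits
  set C' : Set α := {x | ∃ h : CtblCof x, (⟨x, h⟩ : XX α) ∈ C ∧ IsSuccLimit x} with hC'
  have hunb : ∀ y ∈ C, ∃ x ∈ C', y.1 < x := by
    intro y hy
    have hnm' : ∀ x : XX α, ∃ y : XX α, x ∈ C → y ∈ C ∧ x.1 < y.1 := by
      intro x
      by_cases hx : x ∈ C
      · obtain ⟨y, h1, h2⟩ := hnm x hx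
        exact ⟨y, fun _ => ⟨h1, h2⟩⟩
      · exact ⟨x, fun h => absurd h hx⟩
    choose g hg using hnm'
    let u : ℕ → XX α := fun n => g^[n] y
    have hu : ∀ n, u (n + 1) = g (u n) := fun n => Function.iterate_succ_apply' g n y
    have huC : ∀ n, u n ∈ C := by
      intro n
      induction n with
      | zero => exact hy
      | succ n ih => rw [hu]; exact (hg _ ih).1
    have humono : StrictMono (fun n => (u n).1) := strictMono_nat_of_lt_succ fun n => by
      rw [hu]
      exact (hg _ (huC n)).2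
    obtain ⟨s, hs⟩ := exists_isLUB hc (Set.countable_range fun n => (u n).1)
    have hsn : s ∉ Set.range fun n => (u n).1 := by
      rintro ⟨n, rfl⟩
      exact absurd (hs.1 ⟨n + 1, rfl⟩) (not_le.mpr (humono (Nat.lt_succ_self n)))
    have hne' : (Set.range fun n => (u n).1).Nonempty := ⟨_, 0, rfl⟩
    have h1 := ctblCof_of_isLUB (Set.countable_range _) hs hsn
    refine ⟨s, ⟨h1, ?_, isSuccLimit_of_isLUB hne' hs hsn⟩, ?_⟩
    · refine closed_lub C hC (t := range u) ?_ ⟨s, h1⟩ ⟨u 0, 0, rfl⟩ ?_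
      · rintro _ ⟨n, rfl⟩
        exact huC n
      · have : Subtype.val '' range u = range fun n => (u n).1 := by
          rw [← range_comp]; rfl
        have h7 : IsLUB (Subtype.val '' range u) s := this ▸ hs
        exact h7
    · have h2 : (u 0).1 < (u 1).1 := humono Nat.zero_lt_one
      exact lt_of_lt_of_le h2 (hs.1 ⟨1, rfl⟩)
  have hC'lub : ∀ t ⊆ C', t.Countable → t.Nonempty → ∀ x, IsLUB t x → x ∈ C' := by
    intro t ht htc htne x hx
    by_cases hxt : x ∈ t
    · exact ht hxt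
    · have h1 := ctblCof_of_isLUB htc hx hxt
      refine ⟨h1, ?_, isSuccLimit_of_isLUB htne hx hxt⟩
      have h2 : Subtype.val '' {z : XX α | z.1 ∈ t} = t := by
        ext y
        constructor
        · rintro ⟨z, hz, rfl⟩
          exact hz
        · intro hy
          obtain ⟨h3, -, -⟩ := ht hy
          exact ⟨⟨y, h3⟩, hy, rfl⟩
      refine closed_lub C hC (t := {z : XX α | z.1 ∈ t}) ?_ ⟨x, h1⟩ ?_ (h2.symm ▸ hx)
      · intro z hz
        obtain ⟨h3, h4, -⟩ := ht hz
        exact h4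
      · obtain ⟨y, hy⟩ := htne
        obtain ⟨h3, -, -⟩ := ht hy
        exact ⟨⟨y, h3⟩, hy⟩
  -- the first `ω₁` limits
  set E : Set α := {x | x ∈ C' ∧ (C' ∩ Iio x).Countable} with hE
  have hEC : E ⊆ C' := fun x hx => hx.1
  have hEun : ¬ E.Countable := by
    intro hEc
    have hpre : (Subtype.val ⁻¹' E : Set (XX α)).Countable :=
      hEc.preimage (f := (Subtype.val : XX α → α)) Subtype.val_injective
    obtain ⟨y, hy, hyE⟩ := hbd {z : XX α | z.1 ∈ E ∧ z ∈ C} (fun z hz => hz.2)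
      (hpre.mono (fun z hz => hz.1))
    obtain ⟨x, hx, hyx⟩ := hunb y hy
    have hnE : x ∉ E := by
      intro hxE
      obtain ⟨h1, h2, -⟩ := hx
      exact absurd (hyE ⟨x, h1⟩ ⟨hxE, h2⟩) (not_lt.mpr hyx.le)
    have hne1 : (C' \ E).Nonempty := ⟨x, hx, hnE⟩
    set w := wellFounded_lt.min (C' \ E) hne1 with hw
    have hwm : w ∈ C' \ E := wellFounded_lt.min_mem _ hne1
    apply hwm.2
    refine ⟨hwm.1, hEc.mono ?_⟩
    rintro z ⟨hz, hzw⟩
    by_contra hzE
    have h8 : z ∈ C' \ E := ⟨hz, hzE⟩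
    exact absurd hzw (not_lt.mpr (wellFounded_lt.min_le h8))
  have hini : ∀ x ∈ E, (E ∩ Iio x).Countable := by
    intro x hx
    refine hx.2.mono ?_
    intro z hz
    exact ⟨hEC hz.1, hz.2⟩
  obtain ⟨f, hf, hfr⟩ := exists_normal hc E hEun hini (by
      intro t ht htc htne x hx
      refine ⟨hC'lub t (ht.trans hEC) htc htne x hx, ?_⟩
      by_cases hxt : x ∈ t
      · exact (ht hxt).2
      · have h6 : (⋃ y ∈ t, C' ∩ Iio y).Countable := htc.biUnion (fun y hy => (ht hy).2)
        refine h6.mono ?_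
        intro z hz
        obtain ⟨y, hy, hzy⟩ := (lt_isLUB_iff hx).mp hz.2
        exact mem_biUnion hy ⟨hz.1, hzy⟩)
  refine ⟨f, hf, fun x hx => ?_⟩
  obtain ⟨h1, h2, h3⟩ := hEC (hfr hx)
  exact ⟨⟨⟨x, h1⟩, h2, rfl⟩, h1, h3⟩

/-- Theorem 2. -/
theorem staeckel_of_partition (hc : ℵ₀ < cof α) (A : Set α)
    (hA : ¬ ContainsCopy (A ∩ CofOmega α)) (hA' : ¬ ContainsCopy (CofOmega α \ A)) :
    StaeckelCompact (XX α) := by
  classical
  let φ : XX α → Lex (α ⊕ αᵒᵈ) := fun x =>
    if x.1 ∈ A then toLex (Sum.inl x.1) else toLex (Sum.inr (OrderDual.toDual x.1))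
  have hφ : Function.Injective φ := by
    intro x y h
    simp only [φ] at h
    split_ifs at h with h1 h2 h2
    · exact Subtype.ext (Sum.inl_injective (toLex.injective h))
    · have h3 := toLex.injective h
      cases h3
    · have h3 := toLex.injective h
      cases h3
    · exact Subtype.ext (OrderDual.toDual.injective (Sum.inr_injective (toLex.injective h)))
  have hcopy : ∀ (B : Set α), ¬ ContainsCopy (B ∩ CofOmega α) → ∀ C : Set (XX α), IsClosed C →
      C.Nonempty → (∀ x ∈ C, x.1 ∈ B) → ∃ m ∈ C, ∀ y ∈ C, y.1 ≤ m.1 := by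
    intro B hB C hC hne hCB
    by_contra hcon
    push Not at hcon
    obtain ⟨f, hf, hfr⟩ := copy_of_closed hc C hC hne hcon
    apply hB
    refine ⟨f, hf, fun x hx => ?_⟩
    obtain ⟨⟨z, hz, rfl⟩, h2⟩ := hfr hx
    exact ⟨hCB z hz, h2⟩
  have hleast : ∀ C : Set (XX α), C.Nonempty → ∃ m ∈ C, ∀ y ∈ C, m.1 ≤ y.1 := by
    intro C hne
    have hne' : (Subtype.val '' C).Nonempty := hne.image _
    obtain ⟨m, hm, hm'⟩ := wellFounded_lt.min_mem _ hne'
    refine ⟨m, hm, fun y hy => ?_⟩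
    have h5 : y.1 ∈ Subtype.val '' C := ⟨y, hy, rfl⟩
    have := wellFounded_lt.min_le h5
    rw [hm']
    exact this
  have hA'' : ¬ ContainsCopy (Aᶜ ∩ CofOmega α) := by
    have : Aᶜ ∩ CofOmega α = CofOmega α \ A := by
      ext x
      simp only [mem_inter_iff, mem_compl_iff, Set.mem_sdiff]
      tauto
    rw [this]
    exact hA'
  refine ⟨LinearOrder.lift' φ hφ, ?_⟩
  intro C hC hne
  constructor
  · by_cases h : ∃ x ∈ C, x.1 ∈ A
    · obtain ⟨m, hm, hm'⟩ := hleast {x | x ∈ C ∧ x.1 ∈ A} (by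
        obtain ⟨x, hx, hxA⟩ := h
        exact ⟨x, hx, hxA⟩)
      refine ⟨m, hm.1, fun y hy => ?_⟩
      change φ m ≤ φ y
      simp only [φ, if_pos hm.2]
      split_ifs with hyA
      · exact Sum.Lex.toLex_le_toLex.mpr (Sum.Lex.inl (hm' y ⟨hy, hyA⟩))
      · exact Sum.Lex.toLex_le_toLex.mpr (Sum.Lex.sep _ _)
    · push Not at h
      obtain ⟨m, hm, hm'⟩ := hcopy Aᶜ hA'' C hC hne (fun x hx => h x hx)
      refine ⟨m, hm, fun y hy => ?_⟩
      change φ m ≤ φ y
      simp only [φ, if_neg (h m hm), if_neg (h y hy)]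
      exact Sum.Lex.toLex_le_toLex.mpr (Sum.Lex.inr (hm' y hy))
  · by_cases h : ∃ x ∈ C, x.1 ∉ A
    · obtain ⟨m, hm, hm'⟩ := hleast {x | x ∈ C ∧ x.1 ∉ A} (by
        obtain ⟨x, hx, hxA⟩ := h
        exact ⟨x, hx, hxA⟩)
      refine ⟨m, hm.1, fun y hy => ?_⟩
      change φ y ≤ φ m
      simp only [φ, if_neg hm.2]
      split_ifs with hyA
      · exact Sum.Lex.toLex_le_toLex.mpr (Sum.Lex.sep _ _)
      · exact Sum.Lex.toLex_le_toLex.mpr (Sum.Lex.inr (hm' y ⟨hy, hyA⟩))
    · push Not at h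
      obtain ⟨m, hm, hm'⟩ := hcopy A hA C hC hne h
      refine ⟨m, hm, fun y hy => ?_⟩
      change φ y ≤ φ m
      simp only [φ, if_pos (h m hm), if_pos (h y hy)]
      exact Sum.Lex.toLex_le_toLex.mpr (Sum.Lex.inl (hm' y hy))

end Pool.Agent.Helper51.SC
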