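import Mathlib
import Pool.Agent.Helper51.SC.Part

set_option autoImplicit false

/-!
Topological properties of the space of points of countable cofinality.
-/

namespace Pool.Agent.Helper51.SC

open Set Order Cardinal Filter Topology

variable {α : Type} [LinearOrder α] [WellFoundedLT α]

theorem t5 (α : Type) [LinearOrder α] : T5Space (XX α) := by
  letI : TopologicalSpace α := Preorder.topology α
  haveI : OrderTopology α := ⟨rfl⟩
  exact inferInstanceAs (T5Space {x : α // CtblCof x})

theorem countablyCompact (hc : ℵ₀ < cof α) : CountablyCompact (XX α) := by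
  classical
  intro s hs
  -- a countably infinite subset
  have hex : ∃ x : α, {z | z ∈ s ∧ z.1 < x}.Infinite := by
    have h1 : (range fun n => (hs.natEmbedding s n : XX α)).Infinite := by
      refine Set.infinite_range_of_injective ?_
      intro m n h
      exact (hs.natEmbedding s).injective (Subtype.ext h)
    obtain ⟨x, hx⟩ := bdd_of_countable hc
      ((countable_range fun n => (hs.natEmbedding s n : XX α)).image Subtype.val)
    refine ⟨x, h1.mono ?_⟩
    rintro _ ⟨n, rfl⟩
    exact ⟨(hs.natEmbedding s n).2, hx _ ⟨_, ⟨n, rfl⟩, rfl⟩⟩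
  set x := wellFounded_lt.min {x : α | {z | z ∈ s ∧ z.1 < x}.Infinite} hex with hx
  have hxinf : {z | z ∈ s ∧ z.1 < x}.Infinite := wellFounded_lt.min_mem _ hex
  have hxmin : ∀ y < x, {z | z ∈ s ∧ z.1 < y}.Finite := by
    intro y hy
    by_contra hcon
    exact absurd hy (not_lt.mpr (wellFounded_lt.min_le hcon))
  have hbet : ∀ (T : Set (XX α)), T.Infinite → T ⊆ {z | z ∈ s ∧ z.1 < x} → ∀ y < x,
      ∃ z ∈ T, y < z.1 := by
    intro T hT hTs y hy
    by_contra hcon
    push Not at hcon
    have h1 : T ⊆ {z | z ∈ s ∧ z.1 < y} ∪ {z : XX α | z.1 = y} := by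
      intro z hz
      rcases (hcon z hz).lt_or_eq with h | h
      · exact Or.inl ⟨(hTs hz).1, h⟩
      · exact Or.inr h
    have h2 : {z : XX α | z.1 = y}.Subsingleton := by
      intro z hz w hw
      have h5 : z.1 = w.1 := Eq.trans hz (Eq.symm hw)
      exact Subtype.ext h5
    exact hT (((hxmin y hy).union h2.finite).subset h1)
  have hcx : CtblCof x := by
    refine ⟨range fun n => (hxinf.natEmbedding _ n : XX α).1, countable_range _, ?_, ?_⟩
    · rintro _ ⟨n, rfl⟩
      exact (hxinf.natEmbedding _ n).2.2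
    · intro y hy
      have h1 : (range fun n => (hxinf.natEmbedding _ n : XX α)).Infinite := by
        refine Set.infinite_range_of_injective ?_
        intro m n h
        exact (hxinf.natEmbedding _).injective (Subtype.ext h)
      obtain ⟨_, ⟨n, rfl⟩, hn⟩ := hbet _ h1 (by
        rintro _ ⟨n, rfl⟩
        exact (hxinf.natEmbedding _ n).2) y hy
      exact ⟨_, ⟨n, rfl⟩, hn.le⟩
  refine ⟨⟨x, hcx⟩, ?_⟩
  rw [accPt_principal_iff_clusterPt, ← mem_closure_iff_clusterPt, mem_closure_iff']
  right
  constructor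
  · obtain ⟨z, hz⟩ := hxinf.nonempty
    exact ⟨z.1, hz.2⟩
  · intro y hy
    obtain ⟨z, hz, hyz⟩ := hbet _ hxinf subset_rfl y hy
    refine ⟨z, ⟨hz.1, ?_⟩, hyz, hz.2⟩
    intro h
    rw [mem_singleton_iff] at h
    have h2 := hz.2
    rw [h] at h2
    exact lt_irrefl _ h2

/-- The space is scattered: every nonempty subset has an isolated point. -/
theorem scattered (s : Set (XX α)) (hs : s.Nonempty) : ∃ x ∈ s, ¬ AccPt x (𝓟 s) := by
  have hne' : (Subtype.val '' s).Nonempty := hs.image _
  obtain ⟨m, hm, hm'⟩ := wellFounded_lt.min_mem _ hne'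
  refine ⟨m, hm, ?_⟩
  rw [accPt_principal_iff_clusterPt, ← mem_closure_iff_clusterPt, mem_closure_iff']
  rintro (h | ⟨⟨l, hl⟩, h⟩)
  · exact h.2 rfl
  · obtain ⟨z, hz, -, hzm⟩ := h l hl
    have h5 : z.1 ∈ Subtype.val '' s := ⟨z, hz.1, rfl⟩
    have := wellFounded_lt.min_le h5
    rw [← hm'] at this
    exact absurd hzm (not_lt.mpr this)

theorem regularOrder (κ : Cardinal.{0}) (hκ : κ.IsRegular) : IsRegularCardinalOrder κ.ord.ToType where
  type_lt_le_ord_cof := by
    rw [Ordinal.type_toType, Ordinal.cof_toType, hκ.cof_ord]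

end Pool.Agent.Helper51.SC
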