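import Mathlib
import Pool.Agent.Helper51.SC.Top

set_option autoImplicit false

namespace Pool.Agent.Helper51.SC

open Set Order Cardinal Filter Topology

theorem Iic_mem {α : Type} [LinearOrder α] [WellFoundedLT α] [TopologicalSpace α]
    [OrderTopology α] (x : α) : Iic x ∈ 𝓝 x := by
  by_cases hmax : IsMax x
  · exact Filter.mem_of_superset Filter.univ_mem (fun z _ => hmax.isTop z)
  · rw [not_isMax_iff] at hmax
    obtain ⟨b, hb⟩ := hmax
    have hne : (Ioi x).Nonempty := ⟨b, hb⟩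
    have hm : x < wellFounded_lt.min (Ioi x) hne := wellFounded_lt.min_mem _ hne
    refine Filter.mem_of_superset (Iio_mem_nhds hm) ?_
    intro z hz
    rw [mem_Iic]
    by_contra hcon
    rw [not_le] at hcon
    exact absurd hz (not_lt.mpr (wellFounded_lt.min_le hcon))

theorem firstCountable (α : Type) [LinearOrder α] [WellFoundedLT α] :
    FirstCountableTopology (XX α) := by
  letI : TopologicalSpace α := Preorder.topology α
  haveI : OrderTopology α := ⟨rfl⟩
  refine ⟨fun x => ?_⟩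
  have hnh : ∀ U : Set (XX α), U ∈ 𝓝 x ↔ ∃ V ∈ 𝓝 x.1, Subtype.val ⁻¹' V ⊆ U := by
    intro U
    exact mem_nhds_subtype {x : α | CtblCof x} x U
  obtain ⟨s, hs, hsx, hcof⟩ := x.2
  by_cases hmin : ∃ l, l < x.1
  · have hb : (𝓝 x).HasBasis (fun y => y ∈ s) (fun y => {z : XX α | y < z.1 ∧ z.1 ≤ x.1}) := by
      rw [hasBasis_iff]
      intro U
      rw [hnh]
      constructor
      · rintro ⟨V, hV, hVU⟩
        obtain ⟨l, hl, hlV⟩ := exists_Ioc_subset_of_mem_nhds hV hmin
        obtain ⟨y, hy, hly⟩ := hcof l hl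
        exact ⟨y, hy, fun z hz => hVU (hlV ⟨hly.trans_lt hz.1, hz.2⟩)⟩
      · rintro ⟨y, hy, hyU⟩
        exact ⟨Ioi y ∩ Iic x.1, Filter.inter_mem (Ioi_mem_nhds (hsx hy)) (Iic_mem x.1),
          fun z hz => hyU ⟨hz.1, hz.2⟩⟩
    exact HasCountableBasis.isCountablyGenerated ⟨hb, hs⟩
  · push Not at hmin
    have : 𝓝 x = pure x := by
      apply le_antisymm _ (pure_le_nhds x)
      rw [le_pure_iff, hnh]
      refine ⟨Iic x.1, Iic_mem x.1, fun z hz => ?_⟩
      exact Subtype.ext (le_antisymm hz (hmin z.1))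
    rw [this]
    infer_instance

end Pool.Agent.Helper51.SC
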